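import Pool.Agent.FLX.Stmts

/-!
# Row SLV of squad FLX: `P (K f) = f - avg f`
-/

set_option autoImplicit false

open scoped InnerProductSpace Topology ContDiff Manifold
open MeasureTheory Filter Set

noncomputable section

namespace Pool.Agent.FLX.H53

open Pool.Agent.Helper42_Paneitz Pool.Agent.Helper82_Vir

theorem cks_of_sm {f : S4 → ℝ} (hf : Sm f) (k : ℕ) : CkS k f := by
  intro y hy
  exact contDiffAt_infty.1 (hf y hy) k

theorem sm_of_cks {f : S4 → ℝ} (hf : ∀ k : ℕ, CkS k f) : Sm f := by
  intro y hy
  exact contDiffAt_infty.2 fun k => hf k y hy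

theorem sm_K (hrec : RecStmt) {f : S4 → ℝ} (hf : Sm f) : Sm (K f) := by
  apply sm_of_cks
  intro k
  have h1 := hrec k f (cks_of_sm hf k)
  intro y hy
  exact (h1 y hy).of_le (by exact_mod_cast Nat.le_succ k)

theorem eq_zero_of_sq {g : S4 → ℝ} (hg : Continuous g) (h : ∫ y, g y * g y ∂sig = 0) (x : S4) :
    g x = 0 := by
  by_contra hx
  have h1 : 0 < ∫ y, g y * g y ∂sig :=
    single_pos (hg.mul hg) (fun y => mul_self_nonneg _) (x₀ := x) (by
      exact mul_self_pos.2 hx)
  linarith

theorem slv (hrec : RecStmt) (hsym : SymStmt) (hrep : RepStmt) : Pool.Agent.FLX.SlvStmt := by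
  intro f hf x
  have hK : Sm (K f) := sm_K hrec hf
  have hfc := continuous_of_sm hf
  have hg : Sm (fun y => paneitz (K f) y - f y + avg f) :=
    (sm_sub hK.paneitz hf).add (sm_const _)
  have key : ∀ h : S4 → ℝ, Sm h →
      ∫ y, h y * (paneitz (K f) y - f y + avg f) ∂sig = 0 := by
    intro h hh
    have hhc := continuous_of_sm hh
    have hPc := continuous_of_sm hK.paneitz
    have e1 : ∀ y, h y * (paneitz (K f) y - f y + avg f) =
        h y * paneitz (K f) y - f y * h y + avg f * h y := by intro y; ring
    simp only [e1]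
    rw [integral_add (integrable_cont ((hhc.fun_mul hPc).fun_sub (hfc.fun_mul hhc)))
      ((integrable_cont hhc).const_mul _),
      integral_sub (integrable_cont (hhc.fun_mul hPc)) (integrable_cont (hfc.fun_mul hhc)),
      integral_const_mul, integral_paneitz_symm hK hh]
    have h2 := (hsym f (paneitz h) hfc (continuous_of_sm hh.paneitz)).1
    rw [h2]
    have h3 : ∀ y, f y * K (paneitz h) y = f y * h y - avg h * f y := by
      intro y; rw [hrep h hh y]; ring
    simp only [h3]
    rw [integral_sub (integrable_cont (hfc.fun_mul hhc)) ((integrable_cont hfc).const_mul _),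
      integral_const_mul]
    unfold avg
    have hm := msig_pos.ne'
    field_simp
    ring
  have h5 := eq_zero_of_sq (continuous_of_sm hg) (key _ hg) x
  have h6 : paneitz (K f) x - f x + avg f = 0 := h5
  linarith

end Pool.Agent.FLX.H53
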